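import Pool.Agent.Results.MP_fb3fae_co.AllTriangles
import Pool.Agent.Y750.TR.Eight

/-!
# Every triangle is the face of a face-transitive convex polyhedron with eight faces

The polyhedron is the convex hull of the six points `(0, 0, ±h)`, `(±r, 0, z)`, `(0, ±r, -z)`. The
reflections `x ↦ -x`, `y ↦ -y` and the rotary reflection `(x, y, w) ↦ (y, x, -w)` permute these
points, and the faces are the eight images of the triangle `(0, 0, h)`, `(r, 0, z)`, `(0, r, -z)`
under the symmetries which they generate.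
-/

set_option autoImplicit false

namespace Pool.Agent.Results.MP_fb3fae_co.Isohedral

open Module
open Pool.Agent.Results.MP_fb3fae_co.AllTriangles (E3 IsConvexPolyhedron IsTwoFace pt dist_pt
  exists_isometry image_convexHull_isometry verts mem_verts span_verts face_eq)

/-- The parameters of the polyhedron. -/
lemma params (a b c : E3) (hind : LinearIndependent ℝ ![b - a, c - a])
    (hpq : dist a b ≤ dist a c) (he : dist b c ^ 2 < dist a b ^ 2 + dist a c ^ 2) :
    ∃ h z r : ℝ, 0 < h ∧ 0 ≤ z ∧ z < h ∧ 0 < r ∧ r ^ 2 + (h - z) ^ 2 = dist a b ^ 2 ∧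
      r ^ 2 + (h + z) ^ 2 = dist a c ^ 2 ∧ r ^ 2 + r ^ 2 + (2 * z) ^ 2 = dist b c ^ 2 := by
  set p := dist a b ^ 2 with hp
  set q := dist a c ^ 2 with hq
  set e := dist b c ^ 2 with hedef
  have hpq' : p ≤ q := pow_le_pow_left₀ dist_nonneg hpq 2
  -- strict Cauchy-Schwarz
  have hgram : (p + q - e) ^ 2 < 4 * p * q := by
    have n1 : ‖b - a‖ ^ 2 = p := by rw [hp, dist_comm, dist_eq_norm]
    have n2 : ‖c - a‖ ^ 2 = q := by rw [hq, dist_comm, dist_eq_norm]
    have n3 : ‖(b - a) - (c - a)‖ ^ 2 = e := by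
      rw [hedef, sub_sub_sub_cancel_right, dist_eq_norm]
    have inn : 2 * inner ℝ (b - a) (c - a) = p + q - e := by
      have := norm_sub_sq_real (b - a) (c - a)
      rw [n1, n2, n3] at this
      linarith
    have hne : ‖b - a‖ ^ 2 • (c - a) - (inner ℝ (b - a) (c - a)) • (b - a) ≠ 0 := by
      intro h0
      have h1 := (LinearIndependent.pair_iff.1 hind)
        (-(inner ℝ (b - a) (c - a))) (‖b - a‖ ^ 2) (by rw [← h0]; module)
      have hb : b - a ≠ 0 := by
        have := hind.ne_zero 0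
        simpa using this
      have : ‖b - a‖ ^ 2 ≠ 0 := pow_ne_zero 2 (norm_ne_zero_iff.2 hb)
      exact this h1.2
    have hpos : 0 < ‖‖b - a‖ ^ 2 • (c - a) - (inner ℝ (b - a) (c - a)) • (b - a)‖ ^ 2 :=
      pow_pos (norm_pos_iff.2 hne) 2
    rw [norm_sub_sq_real] at hpos
    simp only [norm_smul, inner_smul_left, inner_smul_right, Real.norm_eq_abs, mul_pow, sq_abs,
      RCLike.conj_to_real, real_inner_comm (b - a) (c - a)] at hpos
    have hp0 : 0 < p := by
      have hb : b - a ≠ 0 := by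
        have := hind.ne_zero 0
        simpa using this
      rw [← n1]; exact pow_pos (norm_pos_iff.2 hb) 2
    rw [n1, n2] at hpos
    have h3 : 0 < p * (p * q - (inner ℝ (b - a) (c - a)) ^ 2) := by
      have : inner ℝ (c - a) (b - a) = inner ℝ (b - a) (c - a) := real_inner_comm _ _
      nlinarith [hpos, this]
    have h4 : 0 < p * q - (inner ℝ (b - a) (c - a)) ^ 2 := by
      by_contra hc
      push Not at hc
      nlinarith [mul_nonneg hp0.le (neg_nonneg.2 hc)]
    nlinarith [h4, inn]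
  have hD : 0 < (p + q - e) / 2 := by linarith
  set D := (p + q - e) / 2 with hDdef
  set E := (q - p) / 4 with hEdef
  have hE : 0 ≤ E := by rw [hEdef]; linarith
  set R := Real.sqrt (D ^ 2 + 4 * E ^ 2) with hR
  have hR2 : R ^ 2 = D ^ 2 + 4 * E ^ 2 := Real.sq_sqrt (by positivity)
  have hRD : D ≤ R := by
    rw [hR]; apply Real.le_sqrt_of_sq_le; nlinarith
  have hR0 : 0 < R := lt_of_lt_of_le hD hRD
  have hRlt : 2 * R < p + q := by
    have hpq0 : 0 < p + q := by
      have : 0 ≤ e := by positivity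
      linarith
    by_contra hc
    push Not at hc
    have : (p + q) ^ 2 ≤ (2 * R) ^ 2 := by
      apply pow_le_pow_left₀ hpq0.le hc
    nlinarith [this, hR2, hgram]
  set h := Real.sqrt ((R + D) / 2) with hh
  set z := Real.sqrt ((R - D) / 2) with hz
  set r := Real.sqrt ((e - 2 * (R - D)) / 2) with hr
  have h2 : h ^ 2 = (R + D) / 2 := Real.sq_sqrt (by linarith)
  have z2 : z ^ 2 = (R - D) / 2 := Real.sq_sqrt (by linarith)
  have r2 : r ^ 2 = (e - 2 * (R - D)) / 2 := Real.sq_sqrt (by
    have : 0 < e - 2 * (R - D) := by rw [hDdef]; linarith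
    linarith)
  have hz0 : 0 ≤ z := Real.sqrt_nonneg _
  have hh0 : 0 < h := Real.sqrt_pos.2 (by linarith)
  have hr0 : 0 < r := Real.sqrt_pos.2 (by
    have : 0 < e - 2 * (R - D) := by rw [hDdef]; linarith
    linarith)
  have hzh : z < h := by
    apply Real.sqrt_lt_sqrt (by linarith) (by linarith)
  have hzhE : h * z = E := by
    have : (h * z) ^ 2 = E ^ 2 := by
      rw [mul_pow, h2, z2]
      nlinarith [hR2]
    exact (pow_left_inj₀ (by positivity) hE (by norm_num)).1 this
  -- distances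
  have dp : r ^ 2 + (h - z) ^ 2 = p := by
    have : (h - z) ^ 2 = h ^ 2 + z ^ 2 - 2 * (h * z) := by ring
    rw [this, h2, z2, r2, hzhE, hEdef, hDdef]; ring
  have dq : r ^ 2 + (h + z) ^ 2 = q := by
    have : (h + z) ^ 2 = h ^ 2 + z ^ 2 + 2 * (h * z) := by ring
    rw [this, h2, z2, r2, hzhE, hEdef, hDdef]; ring
  have de : r ^ 2 + r ^ 2 + (2 * z) ^ 2 = e := by
    rw [mul_pow, z2, r2]; ring
  exact ⟨h, z, r, hh0, hz0, hzh, hr0, dp, dq, de⟩

/-! ### The symmetries -/

lemma pt_eta (v : E3) : v = pt (v 0) (v 1) (v 2) := by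
  ext i
  fin_cases i <;> simp [pt]

/-- an involution which preserves distances -/
noncomputable def invo (f : E3 → E3) (hf : ∀ v, f (f v) = v)
    (hd : ∀ v w, dist (f v) (f w) = dist v w) : E3 ≃ᵢ E3 where
  toFun := f
  invFun := f
  left_inv := hf
  right_inv := hf
  isometry_toFun := Isometry.of_dist_eq hd

/-- the reflection `x ↦ -x` -/
noncomputable def s1 : E3 ≃ᵢ E3 := invo (fun v => pt (-(v 0)) (v 1) (v 2))
  (fun v => by
    ext i
    fin_cases i <;> simp [pt])
  (fun v w => by
    rw [dist_pt, EuclideanSpace.dist_eq, Fin.sum_univ_three]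
    simp only [Real.dist_eq, sq_abs]
    congr 1; ring)

/-- the reflection `y ↦ -y` -/
noncomputable def s2 : E3 ≃ᵢ E3 := invo (fun v => pt (v 0) (-(v 1)) (v 2))
  (fun v => by
    ext i
    fin_cases i <;> simp [pt])
  (fun v w => by
    rw [dist_pt, EuclideanSpace.dist_eq, Fin.sum_univ_three]
    simp only [Real.dist_eq, sq_abs]
    congr 1; ring)

/-- the rotary reflection `(x, y, w) ↦ (y, x, -w)` -/
noncomputable def ta : E3 ≃ᵢ E3 := invo (fun v => pt (v 1) (v 0) (-(v 2)))
  (fun v => by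
    ext i
    fin_cases i <;> simp [pt])
  (fun v w => by
    rw [dist_pt, EuclideanSpace.dist_eq, Fin.sum_univ_three]
    simp only [Real.dist_eq, sq_abs]
    congr 1; ring)

lemma s1_pt (x y w : ℝ) : s1 (pt x y w) = pt (-x) y w := by
  change pt (-(pt x y w 0)) (pt x y w 1) (pt x y w 2) = _
  simp [pt]

lemma s2_pt (x y w : ℝ) : s2 (pt x y w) = pt x (-y) w := by
  change pt (pt x y w 0) (-(pt x y w 1)) (pt x y w 2) = _
  simp [pt]

lemma ta_pt (x y w : ℝ) : ta (pt x y w) = pt y x (-w) := by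
  change pt (pt x y w 1) (pt x y w 0) (-(pt x y w 2)) = _
  simp [pt]

lemma coe_tr (g g' : E3 ≃ᵢ E3) : ⇑(g.trans g') = ⇑g' ∘ ⇑g := rfl

/-- `g` is a symmetry of `P`. -/
def IsSymm (P : Set E3) (g : E3 ≃ᵢ E3) : Prop := g '' P = P

lemma IsSymm.trans {P : Set E3} {g g' : E3 ≃ᵢ E3} (h : IsSymm P g) (h' : IsSymm P g') :
    IsSymm P (g.trans g') := by
  unfold IsSymm at *
  rw [coe_tr, Set.image_comp, h, h']

lemma IsSymm.symm {P : Set E3} {g : E3 ≃ᵢ E3} (h : IsSymm P g) : IsSymm P g.symm := by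
  unfold IsSymm at *
  conv_lhs => rw [← h]
  rw [← Set.image_comp]
  simp

lemma isSymm_refl (P : Set E3) : IsSymm P (IsometryEquiv.refl E3) := by
  unfold IsSymm
  have e : ⇑(IsometryEquiv.refl E3) = id := rfl
  rw [e, Set.image_id]

lemma isSymm_hull (h z r : ℝ) (g : E3 ≃ᵢ E3) (hg : ∀ v ∈ verts h z r, g v ∈ verts h z r)
    (hg' : ∀ v ∈ verts h z r, g (g v) = v) :
    IsSymm (convexHull ℝ (verts h z r : Set E3)) g := by
  unfold IsSymm
  rw [image_convexHull_isometry]
  congr 1
  ext v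
  constructor
  · rintro ⟨w, hw, rfl⟩
    exact hg w hw
  · intro hv
    exact ⟨g v, hg v hv, hg' v hv⟩

lemma symm_s1 (h z r : ℝ) : IsSymm (convexHull ℝ (verts h z r : Set E3)) s1 := by
  refine isSymm_hull h z r s1 (fun v hv => ?_) (fun v hv => ?_)
  · rw [mem_verts] at hv ⊢
    rcases hv with rfl | rfl | rfl | rfl | rfl | rfl <;> rw [s1_pt] <;> simp
  · rw [mem_verts] at hv
    rcases hv with rfl | rfl | rfl | rfl | rfl | rfl <;> rw [s1_pt, s1_pt] <;> simp

lemma symm_s2 (h z r : ℝ) : IsSymm (convexHull ℝ (verts h z r : Set E3)) s2 := by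
  refine isSymm_hull h z r s2 (fun v hv => ?_) (fun v hv => ?_)
  · rw [mem_verts] at hv ⊢
    rcases hv with rfl | rfl | rfl | rfl | rfl | rfl <;> rw [s2_pt] <;> simp
  · rw [mem_verts] at hv
    rcases hv with rfl | rfl | rfl | rfl | rfl | rfl <;> rw [s2_pt, s2_pt] <;> simp

lemma symm_ta (h z r : ℝ) : IsSymm (convexHull ℝ (verts h z r : Set E3)) ta := by
  refine isSymm_hull h z r ta (fun v hv => ?_) (fun v hv => ?_)
  · rw [mem_verts] at hv ⊢
    rcases hv with rfl | rfl | rfl | rfl | rfl | rfl <;> rw [ta_pt] <;> simp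
  · rw [mem_verts] at hv
    rcases hv with rfl | rfl | rfl | rfl | rfl | rfl <;> rw [ta_pt, ta_pt] <;> simp

/-- the base triangle -/
noncomputable def T0 (h z r : ℝ) : Set E3 := convexHull ℝ {pt 0 0 h, pt r 0 z, pt 0 r (-z)}

lemma image_tri (g : E3 ≃ᵢ E3) (a b c : E3) :
    g '' convexHull ℝ {a, b, c} = convexHull ℝ {g a, g b, g c} := by
  rw [image_convexHull_isometry, Set.image_insert_eq, Set.image_insert_eq, Set.image_singleton]

/-- Every face is the image of the base triangle under a symmetry. -/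
lemma face_orbit (h z r : ℝ) (hh : 0 < h) (hz : 0 ≤ z) (hzh : z < h) (hr : 0 < r) (F : Set E3)
    (hF : IsTwoFace (convexHull ℝ (verts h z r : Set E3)) F) :
    ∃ g : E3 ≃ᵢ E3, IsSymm (convexHull ℝ (verts h z r : Set E3)) g ∧ F = g '' T0 h z r := by
  obtain ⟨A, B, C, hA, hB, hC, rfl⟩ := face_eq h z r hh hz hzh hr F hF
  have k1 := symm_s1 h z r
  have k2 := symm_s2 h z r
  have k3 := symm_ta h z r
  have k0 := isSymm_refl (convexHull ℝ (verts h z r : Set E3))
  -- the symmetry of the equatorial pairs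
  have key : ∃ g : E3 ≃ᵢ E3, IsSymm (convexHull ℝ (verts h z r : Set E3)) g ∧
      (∀ w, g (pt 0 0 w) = pt 0 0 w) ∧ g (pt r 0 z) = B ∧ g (pt 0 r (-z)) = C := by
    rcases hB with rfl | rfl <;> rcases hC with rfl | rfl
    · exact ⟨_, k0, fun w => rfl, rfl, rfl⟩
    · exact ⟨_, k2, fun w => by rw [s2_pt]; simp, by rw [s2_pt]; simp, by rw [s2_pt]⟩
    · exact ⟨_, k1, fun w => by rw [s1_pt]; simp, by rw [s1_pt], by rw [s1_pt]; simp⟩
    · refine ⟨_, k1.trans k2, fun w => ?_, ?_, ?_⟩
      · rw [IsometryEquiv.trans_apply, s1_pt, s2_pt]; simp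
      · rw [IsometryEquiv.trans_apply, s1_pt, s2_pt]; simp
      · rw [IsometryEquiv.trans_apply, s1_pt, s2_pt]; simp
  obtain ⟨g, hg, g0, g1, g2⟩ := key
  rcases hA with rfl | rfl
  · refine ⟨g, hg, ?_⟩
    rw [T0, image_tri, g0, g1, g2]
  · refine ⟨ta.trans g, k3.trans hg, ?_⟩
    rw [T0, image_tri]
    simp only [IsometryEquiv.trans_apply, ta_pt, neg_neg]
    rw [g0, g1, g2, Set.pair_comm C B]

/-- `P` is a convex polyhedron with at most six vertices and exactly eight faces, each of which is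
congruent to the triangle `T`, and the symmetries of `P` permute its faces transitively. -/
def IsohedralCopies (P T : Set E3) : Prop :=
  IsConvexPolyhedron P ∧
  (∃ V : Finset E3, V.card ≤ 6 ∧ P = convexHull ℝ (V : Set E3)) ∧
  {F : Set E3 | IsTwoFace P F}.Finite ∧ {F : Set E3 | IsTwoFace P F}.ncard = 8 ∧
  (∀ F : Set E3, IsTwoFace P F → ∃ g : E3 ≃ᵢ E3, F = g '' T) ∧
  ∀ F F' : Set E3, IsTwoFace P F → IsTwoFace P F' →
    ∃ g : E3 ≃ᵢ E3, g '' P = P ∧ g '' F = F'

lemma main (a b c : E3) (hind : LinearIndependent ℝ ![b - a, c - a])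
    (hpq : dist a b ≤ dist a c) (he : dist b c ^ 2 < dist a b ^ 2 + dist a c ^ 2) :
    ∃ P : Set E3, IsohedralCopies P (convexHull ℝ {a, b, c}) := by
  classical
  obtain ⟨h, z, r, hh0, hz0, hzh, hr0, dp, dq, de⟩ := params a b c hind hpq he
  obtain ⟨g0, ga, gb, gc⟩ := exists_isometry a b c (pt 0 0 h) (pt r 0 z) (pt 0 r (-z)) hind
    (by
      rw [dist_pt, ← Real.sqrt_sq (dist_nonneg (x := a) (y := b)), ← dp]
      congr 1; ring)
    (by
      rw [dist_pt, ← Real.sqrt_sq (dist_nonneg (x := a) (y := c)), ← dq]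
      congr 1; ring)
    (by
      rw [dist_pt, ← Real.sqrt_sq (dist_nonneg (x := b) (y := c)), ← de]
      congr 1; ring)
  have hT0 : T0 h z r = g0 '' convexHull ℝ {a, b, c} := by
    rw [image_tri, ga, gb, gc, T0]
  refine ⟨convexHull ℝ (verts h z r : Set E3), ⟨⟨verts h z r, rfl⟩, ?_⟩,
    ⟨verts h z r, ?_, rfl⟩, ?_, ?_, ?_, ?_⟩
  · rw [interior_convexHull_nonempty_iff_affineSpan_eq_top]
    have hne : (verts h z r : Set E3).Nonempty := ⟨pt 0 0 h, by simp [mem_verts]⟩
    rw [AffineSubspace.affineSpan_eq_top_iff_vectorSpan_eq_top_of_nonempty ℝ E3 E3 hne]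
    exact span_verts h z r hh0 hr0
  · unfold verts
    convert Finset.card_le_six
  · rw [Pool.Agent.Y750.TR.Eight.faces_eq h z r hh0 hz0 hzh hr0]
    exact Set.finite_range _
  · exact Pool.Agent.Y750.TR.Eight.ncard_faces h z r hh0 hz0 hzh hr0
  · intro F hF
    obtain ⟨g, _, rfl⟩ := face_orbit h z r hh0 hz0 hzh hr0 F hF
    refine ⟨g0.trans g, ?_⟩
    rw [hT0, coe_tr, Set.image_comp]
  · intro F F' hF hF'
    obtain ⟨g, hg, rfl⟩ := face_orbit h z r hh0 hz0 hzh hr0 F hF
    obtain ⟨g', hg', rfl⟩ := face_orbit h z r hh0 hz0 hzh hr0 F' hF'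
    refine ⟨g.symm.trans g', hg.symm.trans hg', ?_⟩
    rw [coe_tr, Set.image_comp, ← Set.image_comp g.symm g]
    simp

/-- **Every triangle is the face of a face-transitive convex polyhedron with eight faces.**
For every nondegenerate triangle `t` (three affinely independent points of `ℝ³`) there is a convex
polyhedron `P`, the convex hull of at most six points, with exactly eight two-dimensional faces, all
of which are images of the triangle under isometries of `ℝ³`, such that any two faces of `P` are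
carried to one another by an isometry of `ℝ³` that maps `P` onto itself. -/
theorem result : ∀ t : Fin 3 → E3, AffineIndependent ℝ t →
    ∃ P : Set E3, IsohedralCopies P (convexHull ℝ (Set.range t)) := by
  intro t ht
  have hrange : ∀ i j k : Fin 3, i ≠ j → i ≠ k → j ≠ k → Set.range t = {t i, t j, t k} := by
    intro i j k hij hik hjk
    ext x
    simp only [Set.mem_range, Set.mem_insert_iff, Set.mem_singleton_iff]
    constructor
    · rintro ⟨m, rfl⟩
      have : m = i ∨ m = j ∨ m = k := by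
        revert i j k m; decide
      rcases this with rfl | rfl | rfl <;> simp
    · rintro (rfl | rfl | rfl)
      exacts [⟨i, rfl⟩, ⟨j, rfl⟩, ⟨k, rfl⟩]
  have hind : ∀ i j k : Fin 3, i ≠ j → i ≠ k → j ≠ k →
      LinearIndependent ℝ ![t j - t i, t k - t i] := by
    intro i j k hij hik hjk
    have h1 := (affineIndependent_iff_linearIndependent_vsub ℝ t i).1 ht
    let f : Fin 2 → {x : Fin 3 // x ≠ i} := ![⟨j, hij.symm⟩, ⟨k, hik.symm⟩]
    have hf : Function.Injective f := by
      intro u v huv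
      fin_cases u <;> fin_cases v <;> simp_all [f]
    have h2 := h1.comp f hf
    have h3 : ![t j - t i, t k - t i] = (fun m : {x : Fin 3 // x ≠ i} => t m -ᵥ t i) ∘ f := by
      funext u
      fin_cases u <;> rfl
    rw [h3]
    exact h2
  -- the construction for one labelling
  have key : ∀ i j k : Fin 3, i ≠ j → i ≠ k → j ≠ k →
      dist (t j) (t k) ^ 2 < dist (t i) (t j) ^ 2 + dist (t i) (t k) ^ 2 →
      ∃ P : Set E3, IsohedralCopies P (convexHull ℝ (Set.range t)) := by
    intro i j k hij hik hjk hac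
    rcases le_total (dist (t i) (t j)) (dist (t i) (t k)) with h | h
    · rw [hrange i j k hij hik hjk]
      exact main (t i) (t j) (t k) (hind i j k hij hik hjk) h hac
    · rw [hrange i k j hik hij hjk.symm]
      exact main (t i) (t k) (t j) (hind i k j hik hij hjk.symm) h
        (by rw [dist_comm (t k) (t j)]; linarith)
  by_cases h : dist (t 1) (t 2) ^ 2 < dist (t 0) (t 1) ^ 2 + dist (t 0) (t 2) ^ 2
  · exact key 0 1 2 (by decide) (by decide) (by decide) h
  · push Not at h
    refine key 1 0 2 (by decide) (by decide) (by decide) ?_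
    have h01 : 0 < dist (t 0) (t 1) := by
      rw [dist_pos]
      intro h0
      have := ht.injective h0
      exact absurd this (by decide)
    rw [dist_comm (t 1) (t 0)]
    nlinarith [pow_pos h01 2]

end Pool.Agent.Results.MP_fb3fae_co.Isohedral
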